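import Mathlib

namespace Pool.Agent.Results.MP_3aa442_co.Counter
open Matrix

abbrev M (n : ℕ) := Matrix (Fin n) (Fin n) ℝ

/-- Symmetric doubly stochastic matrices. -/
def Δ (n : ℕ) : Set (M n) := {A | A.IsSymm ∧ (∀ i j, 0 ≤ A i j) ∧ (∀ i, ∑ j, A i j = 1) ∧
  ∀ j, ∑ i, A i j = 1}

/-- Zero diagonal, all other entries `1/(n-1)`. -/
noncomputable def C (n : ℕ) : M n := of fun i j => if i = j then 0 else 1 / ((n : ℝ) - 1)

/-- Determined by its spectrum in `Δ n`. -/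
def DS {n : ℕ} (A : M n) : Prop := ∀ B ∈ Δ n, (∃ S T : M n, S * T = 1 ∧ B = T * A * S) →
  ∃ σ : Equiv.Perm (Fin n), B = (σ.permMatrix ℝ)ᵀ * A * σ.permMatrix ℝ

noncomputable def A : M 4 := !![0, 1, 0, 0; 1, 0, 0, 0; 0, 0, 1/2, 1/2; 0, 0, 1/2, 1/2]

lemma key (B : M 4) (h : B ∈ Δ 4) (t : ∑ i, B i i = 1) (h0 : ∑ j, B 0 j ^ 2 = 1)
    (h1 : ∑ j, B 1 j ^ 2 = 1) : B = A := by
  obtain ⟨s, p, r, -⟩ := h
  have r0 := r 0; have r1 := r 1; have r2 := r 2; have r3 := r 3
  have s1 := s.apply 0 1; have s2 := s.apply 0 2; have s3 := s.apply 0 3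
  have s4 := s.apply 1 2; have s5 := s.apply 1 3; have s6 := s.apply 2 3
  simp only [Fin.sum_univ_four] at *
  have u : ∀ a b c d : ℝ, 0 ≤ a → 0 ≤ b → 0 ≤ c → 0 ≤ d → a + b + c + d = 1 →
      a ^ 2 + b ^ 2 + c ^ 2 + d ^ 2 = 1 → a = 1 ∨ b = 1 ∨ c = 1 ∨ d = 1 := by
    intro a b c d ha hb hc hd e f
    by_contra z
    simp only [not_or] at z
    have k : ∀ x : ℝ, 0 ≤ x → x ≤ 1 → x ≠ 1 → x ^ 2 - x = 0 → x = 0 := fun x _ _ q w => by
      have : x * (x - 1) = 0 := by linarith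
      exact (mul_eq_zero.1 this).resolve_right (sub_ne_zero.2 q)
    have k1 := k a ha (by linarith) z.1 (by nlinarith)
    have k2 := k b hb (by linarith) z.2.1 (by nlinarith)
    have k3 := k c hc (by linarith) z.2.2.1 (by nlinarith)
    have k4 := k d hd (by linarith) z.2.2.2 (by nlinarith)
    linarith
  have := p 0 0; have := p 0 1; have := p 0 2; have := p 0 3; have := p 1 1; have := p 1 2
  have := p 1 3; have := p 2 2; have := p 2 3; have := p 3 3
  rcases u _ _ _ _ (p 0 0) (p 0 1) (p 0 2) (p 0 3) r0 h0 with a | a | a | a <;>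
    rcases u _ _ _ _ (p 1 0) (p 1 1) (p 1 2) (p 1 3) r1 h1 with b | b | b | b <;>
    first
    | (exfalso; linarith)
    | (ext i j; fin_cases i <;> fin_cases j <;> simp [A] <;> linarith)

lemma ds : DS A := by
  rintro B h ⟨S, T, e, rfl⟩
  set B := T * A * S with hB
  have e' : T * S = 1 := mul_eq_one_comm.1 e
  have t : ∑ i, B i i = 1 := by
    have : trace B = trace A := by rw [hB, trace_mul_cycle, e, Matrix.one_mul]
    simpa [trace, A, Fin.sum_univ_four, ← two_mul] using this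
  have f : 1 - B * B = T * vecMulVec ![0, 0, 1, -1] ![0, 0, 1/2, -1/2] * S := by
    rw [show vecMulVec ![0, 0, 1, -1] ![0, 0, 1/2, -1/2] = 1 - A * A by
      ext i j; fin_cases i <;> fin_cases j <;> simp [A, vecMulVec] <;> norm_num, hB]
    simp only [mul_sub, sub_mul, mul_one, e', mul_assoc]
    rw [← mul_assoc S, e, one_mul]
  rw [mul_vecMulVec, vecMulVec_mul] at f
  generalize T *ᵥ _ = x, _ ᵥ* S = y at f
  have g : ∀ i j, x i * y j = (if i = j then 1 else 0) - ∑ k, B i k * B k j := fun i j => by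
    have := congrFun (congrFun f i) j
    simpa [vecMulVec, mul_apply, one_apply] using this.symm
  have d : ∀ i, x i * y i = 1 - ∑ k, B i k ^ 2 := fun i => by
    rw [g, if_pos rfl]; simp only [sq, h.1.apply i]
  have d0 : ∀ i, 0 ≤ x i * y i := fun i => by
    rw [d, ← h.2.2.1 i, sub_nonneg]
    refine Finset.sum_le_sum fun k _ => ?_
    have := Finset.single_le_sum (fun j _ => h.2.1 i j) (Finset.mem_univ k)
    rw [h.2.2.1 i] at this
    nlinarith [h.2.1 i k]
  have d1 : ∀ i j, i ≠ j → x i * y j ≤ 0 := fun i j n => by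
    rw [g, if_neg n, zero_sub, neg_nonpos]
    exact Finset.sum_nonneg fun k _ => mul_nonneg (h.2.1 _ _) (h.2.1 _ _)
  have d2 : ∀ i j k, i ≠ j → j ≠ k → k ≠ i → x i * y i = 0 ∨ x j * y j = 0 ∨ x k * y k = 0 := by
    intro i j k a b c
    rw [← mul_eq_zero, ← mul_eq_zero]
    refine le_antisymm ?_ (mul_nonneg (d0 _) (mul_nonneg (d0 _) (d0 _)))
    rw [show x i * y i * (x j * y j * (x k * y k)) = x i * y j * (x j * y k * (x k * y i)) by ring]
    exact mul_nonpos_of_nonpos_of_nonneg (d1 _ _ a) (mul_nonneg_of_nonpos_of_nonpos (d1 _ _ b) (d1 _ _ c))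
  obtain ⟨k, l, n, a, b⟩ : ∃ k l, k ≠ l ∧ x k * y k = 0 ∧ x l * y l = 0 := by
    by_contra z
    push Not at z
    have := d2 0 1 2; have := d2 0 1 3; have := d2 0 2 3; have := d2 1 2 3
    have := z 0 1; have := z 0 2; have := z 0 3; have := z 1 2; have := z 1 3; have := z 2 3
    simp only [ne_eq, Fin.reduceEq, not_false_eq_true, true_imp_iff] at *
    tauto
  obtain ⟨σ, rfl, rfl⟩ : ∃ σ : Equiv.Perm (Fin 4), σ 0 = k ∧ σ 1 = l :=
    (by decide : ∀ k l : Fin 4, k ≠ l → ∃ σ : Equiv.Perm (Fin 4), σ 0 = k ∧ σ 1 = l) k l n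
  have := key (B.submatrix σ σ) ⟨h.1.submatrix _, fun _ _ => h.2.1 _ _,
    fun i => (Equiv.sum_comp σ (B (σ i))).trans (h.2.2.1 _),
    fun j => (Equiv.sum_comp σ (B · (σ j))).trans (h.2.2.2 _)⟩ ((Equiv.sum_comp σ fun i => B i i).trans t)
    ((Equiv.sum_comp σ fun j => B (σ 0) j ^ 2).trans (by linarith [d (σ 0)]))
    ((Equiv.sum_comp σ fun j => B (σ 1) j ^ 2).trans (by linarith [d (σ 1)]))
  refine ⟨σ, ?_⟩
  rw [← this, transpose_permMatrix, Equiv.Perm.permMatrix, Equiv.Perm.permMatrix,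
    PEquiv.toMatrix_toPEquiv_mul, PEquiv.mul_toMatrix_toPEquiv]
  ext i j; simp

lemma mem (a : ℝ) (h : 0 ≤ a) (h' : a ≤ 1) :
    !![0, 1, 0, 0; 1, 0, 0, 0; 0, 0, a, 1 - a; 0, 0, 1 - a, a] ∈ Δ 4 := by
  refine ⟨?_, fun i j => ?_, fun i => ?_, fun i => ?_⟩
  · ext i j; fin_cases i <;> fin_cases j <;> rfl
  · fin_cases i <;> fin_cases j <;> simp [h, h']
  all_goals fin_cases i <;> simp [Fin.sum_univ_four]

theorem result : ¬ ∀ n, 2 ≤ n → ∀ A ∈ Δ n, 0 < A.trace → DS A → A ∈ segment ℝ 1 (C n) ∨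
    ∃ P ∈ (Δ n).extremePoints ℝ, A ∈ segment ℝ 1 P ∨ A ∈ segment ℝ (C n) P := by
  intro h
  have ne : A ∉ (Δ 4).extremePoints ℝ := fun q => by
    have := q.2 (mem 0 le_rfl zero_le_one) (mem 1 zero_le_one le_rfl) ⟨1 / 2, 1 / 2, by norm_num,
      by norm_num, by norm_num, by ext i j; fin_cases i <;> fin_cases j <;> simp [A] <;> norm_num⟩
    have := congrFun (congrFun this 2) 2
    simp [A] at this
  rcases h 4 (by omega) A (by convert mem (1 / 2) (by norm_num) (by norm_num) using 1; norm_num [A])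
    (by simp [trace, A, Fin.sum_univ_four]) ds with ⟨a, b, -, -, -, e⟩ |
      ⟨P, p, ⟨a, b, ha, hb, s, e⟩ | ⟨a, b, ha, hb, s, e⟩⟩
  · have u := congrFun (congrFun e 0) 2
    have v := congrFun (congrFun e 0) 1
    simp [A, C] at u v
    norm_num at u
    simp [u] at v
  · have u := congrFun (congrFun e 0) 0
    simp [A] at u
    obtain rfl : a = 0 := by nlinarith [p.1.2.1 0 0]
    obtain rfl : b = 1 := by linarith
    exact ne (by simpa [← e] using p)
  · have u := congrFun (congrFun e 0) 2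
    simp [A, C] at u
    obtain rfl : a = 0 := by norm_num at u; nlinarith [p.1.2.1 0 2]
    obtain rfl : b = 1 := by linarith
    exact ne (by simpa [← e] using p)

end Pool.Agent.Results.MP_3aa442_co.Counter
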